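import Pool.Agent.Results.MP_af909d_lc.Undecidable
import Pool.Agent.Y926.Ent.Main

/-!
# Hilbert's tenth problem for one equation over the ring of entire functions of `n ≥ 2` variables

Solvability in `H_n`, `n ≥ 2`, of one polynomial equation with coefficients in `ℤ[z_1, …, z_n]`, in a
bounded number of unknowns and of bounded degree in the unknowns, is `Σ₁`-hard: every r.e. set of
natural numbers is many-one reducible to it. So it is undecidable, and unsolvability is not even
semi-decidable.
-/

set_option autoImplicit false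

namespace Pool.Agent.Results.MP_af909d_lc.OneEquation

open Pool.Agent.Results.MP_af909d_lc.Undecidable
open Pool.Agent.Helper344.Ent (Pol Solv)
open Pool.Agent.Y926.Ent Pool.Agent.Y926.CE

/-- `P` contains only the unknowns `x_0, …, x_{N-1}`, and each of its monomials contains at most `d`
unknowns (with repetitions). -/
def Bounded {n : ℕ} (N d : ℕ) (P : Poly n) : Prop :=
  ∀ mo ∈ P, (∀ j : ℕ, Sum.inr j ∈ mo.2 → j < N) ∧ mo.2.countP (fun v => v.isRight) ≤ d

/-- The equation `P = 0` has a solution in the ring `H_n` of entire functions on `ℂⁿ`. -/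
def HasSolution {n : ℕ} (P : Poly n) : Prop := ∃ x : ℕ → H n, value x P = 0

/-- sorting of the variables of a polynomial -/
def convP {n : ℕ} (hn : 2 ≤ n) (p : Pol) : Poly n := p.map fun m => (m.1, m.2.map (sortVar hn))

theorem convP_prim {n : ℕ} (hn : 2 ≤ n) : Primrec (convP hn) := by
  have h1 : Primrec (sortVar hn) := by
    unfold sortVar
    refine Primrec.ite (Primrec.eq.comp Primrec.id (Primrec.const 0)) (Primrec.const _) ?_
    refine Primrec.ite (Primrec.eq.comp Primrec.id (Primrec.const 1)) (Primrec.const _) ?_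
    exact Primrec.sumInr.comp (Primrec.nat_sub.comp Primrec.id (Primrec.const n))
  have h2 : Primrec fun m : ℤ × List ℕ => (m.1, m.2.map (sortVar hn)) :=
    Primrec.pair Primrec.fst (Primrec.list_map Primrec.snd (h1.comp Primrec.snd).to₂)
  exact Primrec.list_map Primrec.id (h2.comp Primrec.snd).to₂

theorem solvable_convP {n : ℕ} (hn : 2 ≤ n) (p : Pol)
    (hv : ∀ mo ∈ p, ∀ j ∈ mo.2, j < 2 ∨ n ≤ j) :
    (∃ x : ℕ → H n, value x (convP hn p) = 0) ↔ Solv n [p] := by
  rw [← solvable_iff hn [p] (by
    intro q hq
    rw [List.mem_singleton] at hq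
    subst hq
    exact hv)]
  unfold Solvable conv convP
  simp only [List.map_cons, List.map_nil, List.forall_mem_singleton]

theorem bounded_convP {n : ℕ} (hn : 2 ≤ n) {N d : ℕ} {p : Pol} (h : Bnd n N d p)
    (hv : ∀ mo ∈ p, ∀ j ∈ mo.2, j < 2 ∨ n ≤ j) : Bounded N d (convP hn p) := by
  intro mo hmo
  obtain ⟨m, hm, rfl⟩ := List.mem_map.1 hmo
  obtain ⟨h1, h2⟩ := h m hm
  constructor
  · intro j hj
    obtain ⟨i, hi, hij⟩ := List.mem_map.1 hj
    have h3 := h1 i hi
    unfold sortVar at hij
    by_cases hi0 : i = 0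
    · rw [if_pos hi0] at hij
      cases hij
    · by_cases hi1 : i = 1
      · rw [if_neg hi0, if_pos hi1] at hij
        cases hij
      · rw [if_neg hi0, if_neg hi1] at hij
        have : i - n = j := Sum.inr.inj hij
        omega
  · refine le_trans ?_ h2
    change (m.2.map (sortVar hn)).countP _ ≤ _
    rw [List.countP_map]
    refine List.countP_mono_left fun i hi hr => ?_
    rcases hv m hm i hi with h3 | h3
    · exfalso
      have h4 : i = 0 ∨ i = 1 := by omega
      rcases h4 with rfl | rfl
      · simp [sortVar] at hr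
      · simp [sortVar] at hr
    · simpa using h3

/-- **The theorem.** Let `n ≥ 2`. For every r.e. set `p` of natural numbers there are bounds `N`,
`d` and a computable sequence `P 0, P 1, …` of polynomials with coefficients in `ℤ[z_1, …, z_n]`, in
the unknowns `x_0, …, x_{N-1}` and of degree at most `d` in the unknowns, such that `m ∈ p` iff the
equation `P m = 0` has a solution in the ring `H_n` of entire functions on `ℂⁿ`. Hence, for some `N`
and `d`, there is no algorithm that decides for such equations whether they are solvable in `H_n`,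
and the set of those that are not solvable in `H_n` is not even r.e. -/
theorem result (n : ℕ) (hn : 2 ≤ n) :
    (∀ p : ℕ → Prop, REPred p → ∃ (N d : ℕ) (P : ℕ → Poly n), Computable P ∧
      (∀ m, Bounded N d (P m)) ∧ ∀ m, p m ↔ HasSolution (P m)) ∧
    (∃ N d : ℕ,
      (¬ ComputablePred fun P : Poly n => Bounded N d P ∧ HasSolution P) ∧
      ¬ REPred fun P : Poly n => Bounded N d P ∧ ¬ HasSolution P) := by
  have key : ∀ p : ℕ → Prop, REPred p → ∃ (N d : ℕ) (P : ℕ → Poly n), Computable P ∧
      (∀ m, Bounded N d (P m)) ∧ ∀ m, p m ↔ HasSolution (P m) := by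
    intro p hp
    obtain ⟨N, d, P, hP, hb, hv, hiff⟩ := one_equation hn hp
    refine ⟨N, d, fun m => convP hn (P m), ((convP_prim hn).comp hP).to_comp,
      fun m => bounded_convP hn (hb m) (hv m), fun m => ?_⟩
    rw [hiff m]
    exact (solvable_convP hn (P m) (hv m)).symm
  refine ⟨key, ?_⟩
  obtain ⟨p, hp, hnp⟩ := exists_re_not_co
  obtain ⟨N, d, P, hP, hb, hiff⟩ := key p hp
  refine ⟨N, d, ?_, ?_⟩
  · intro h
    apply hnp
    refine (re_comp h.not.to_re hP).of_eq fun m => ?_
    rw [hiff m]
    exact ⟨fun h1 h2 => h1 ⟨hb m, h2⟩, fun h1 h2 => h1 h2.2⟩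
  · intro h
    apply hnp
    refine (re_comp h hP).of_eq fun m => ?_
    rw [hiff m]
    exact ⟨fun h1 => h1.2, fun h1 => ⟨hb m, h1⟩⟩

end Pool.Agent.Results.MP_af909d_lc.OneEquation
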